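import Pool.Agent.R822.TukeyCore

/-!
MP_f56686: there is an omega-narrow uniform space `(X, 𝒰)` such that the neighbourhood filter of
the identity of the free topological group `F(X, 𝒰)` is not Tukey equivalent to `𝒰^ω`.
-/

namespace Pool.Agent.Results.MP_f56686_gt.NotTukey

open Filter Topology Uniformity Pool.Agent.R822.Tukey

/-- The uniform space `X` is `ω`-narrow. -/
def Narrow (X : Type) [UniformSpace X] : Prop :=
  ∀ U ∈ 𝓤 X, ∃ A : Set X, A.Countable ∧ ∀ x, ∃ a ∈ A, (a, x) ∈ U

/-- Tukey equivalence of preorders. -/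
def TukeyEq (P Q : Type) [Preorder P] [Preorder Q] : Prop := TukeyLE P Q ∧ TukeyLE Q P

/-- There are an `ω`-narrow Hausdorff uniform space `X` and a topology `t` on the free group on
`X`, the finest group topology for which the canonical map is uniformly continuous with respect
to the two-sided uniformity (so that this is the free topological group `F(X, 𝒰)`), such that the
neighbourhoods of the identity, ordered by reverse inclusion, are not Tukey reducible to the
power `𝒰^ω` of the poset of entourages ordered by reverse inclusion; in particular the two are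
not Tukey equivalent. -/
theorem result :
    ∃ (X : Type) (_ : UniformSpace X), Narrow X ∧ (∀ x y : X, (∀ U ∈ 𝓤 X, (x, y) ∈ U) → x = y) ∧
      ∃ t : TopologicalSpace (FreeGroup X), IsLeast (Tops X) t ∧
        ¬ TukeyLE (RevSets (@nhds _ t 1).sets) (ℕ → RevSets (𝓤 X).sets) ∧
        ¬ TukeyEq (RevSets (@nhds _ t 1).sets) (ℕ → RevSets (𝓤 X).sets) := by
  have key : ¬ TukeyLE (RevSets (@nhds _ (sInf (Tops (Pts (Set ((ℕ → ℕ) × (ℕ → ℕ) → ℕ))))) 1).sets)
      (ℕ → RevSets (𝓤 (Pts (Set ((ℕ → ℕ) × (ℕ → ℕ) → ℕ)))).sets) := by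
    refine core (isLeast_sInf _) ?_ (fun f A k => ⟨R A.1 (f.2 k), R_mem A.2 _⟩) ?_ ?_
    · rw [Cardinal.mk_set]
      exact Cardinal.cantor _
    · intro f A B h k
      exact R_mono h le_rfl
    · intro q
      have h1 : ∀ k, ∃ A : Set _, A.Countable ∧ ∃ n, R A n ⊆ (q k).1 := fun k =>
        mem_uniformity.mp (q k).2
      choose A hA n hn using h1
      refine ⟨(n, n), ⟨⋃ k, A k, Set.countable_iUnion hA⟩, fun k => ?_⟩
      exact (R_mono (Set.subset_iUnion A k) le_rfl).trans (hn k)
  exact ⟨Pts (Set ((ℕ → ℕ) × (ℕ → ℕ) → ℕ)), inferInstance, narrow, fun x y h => separated h,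
    sInf (Tops _), isLeast_sInf _, key, fun h => key h.1⟩

end Pool.Agent.Results.MP_f56686_gt.NotTukey
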